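import Pool.Agent.W47.JL.Defs

/-!
# Project JL, part HL: Hermite's approximations give the measure of linear independence
-/

set_option autoImplicit false

namespace Pool.Agent.W588.JL

open Finset Polynomial Filter Pool.Agent.W47.JL

/-- choice of the parameter `N` -/
theorem choice (n : ℕ) (C ε : ℝ) (hC : 1 ≤ C) (hε : 0 < ε) : ∃ K : ℝ, 0 < K ∧ ∀ H : ℝ, 1 ≤ H →
    ∃ N : ℕ, 2 ≤ N ∧ N % n.factorial = 1 % n.factorial ∧
      2 * ((n : ℝ) + 1) * H * C ^ N ≤ N.factorial ∧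
      C ^ N * (N.factorial : ℝ) ^ n ≤ K * H ^ ((n : ℝ) + ε) := by
  obtain ⟨M, hM⟩ : ∃ M, M = n.factorial := ⟨_, rfl⟩
  rw [← hM]
  have hM1 : 1 ≤ M := hM ▸ Nat.factorial_pos n
  have hC0 : 0 < C := by linarith
  obtain ⟨A, hA⟩ : ∃ A : ℝ, A = C ^ (n + 1) * 2 ^ (M * n) := ⟨_, rfl⟩
  have hA1 : 1 ≤ A := by
    rw [hA]
    exact one_le_mul_of_one_le_of_one_le (one_le_pow₀ hC) (one_le_pow₀ (by norm_num))
  have hA0 : 0 < A := by linarith
  obtain ⟨D, hD⟩ : ∃ D : ℝ, D = (A ^ (1 + M)) ^ (1 / ε) * C := ⟨_, rfl⟩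
  have hD0 : 0 < D := by rw [hD]; positivity
  obtain ⟨K0, hK0⟩ : ∃ K0 : ℝ, ∀ N : ℕ, D ^ N / N.factorial ≤ K0 := by
    obtain ⟨K0, hK0⟩ := (FloorSemiring.tendsto_pow_div_factorial_atTop D).bddAbove_range
    exact ⟨K0, fun N => hK0 ⟨N, rfl⟩⟩
  have hK0pos : 0 < K0 := lt_of_lt_of_le (by positivity) (hK0 0)
  refine ⟨(2 * ((n : ℝ) + 1)) ^ n * K0 ^ ε * (2 * ((n : ℝ) + 1)) ^ ε, by positivity,
    fun H hH => ?_⟩
  have hH0 : 0 < H := by linarith
  have hex : ∃ m : ℕ, 2 * ((n : ℝ) + 1) * H * C ^ (1 + M * m) ≤ ((1 + M * m).factorial : ℝ) := by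
    have h0 := FloorSemiring.tendsto_pow_div_factorial_atTop C
    have h1 : Tendsto (fun m : ℕ => 1 + M * m) atTop atTop := by
      refine tendsto_atTop_mono (fun m => ?_) tendsto_id
      show m ≤ 1 + M * m
      nlinarith
    have h2 := h0.comp h1
    have h3 := h2.eventually (gt_mem_nhds (show (0 : ℝ) < 1 / (2 * ((n : ℝ) + 1) * H) by positivity))
    obtain ⟨m, hm⟩ := h3.exists
    refine ⟨m, ?_⟩
    simp only [Function.comp] at hm
    rw [div_lt_div_iff₀ (by positivity) (by positivity)] at hm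
    linarith
  classical
  obtain ⟨m, hm⟩ : ∃ m, m = Nat.find hex := ⟨_, rfl⟩
  have hspec : 2 * ((n : ℝ) + 1) * H * C ^ (1 + M * m) ≤ ((1 + M * m).factorial : ℝ) := by
    rw [hm]; exact Nat.find_spec hex
  have hmne : m ≠ 0 := by
    rintro rfl
    simp only [mul_zero, add_zero, Nat.factorial_one, pow_one, Nat.cast_one] at hspec
    have h1 : 1 ≤ H * C := one_le_mul_of_one_le_of_one_le hH hC
    have h2 : (0 : ℝ) ≤ n := Nat.cast_nonneg n
    nlinarith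
  obtain ⟨m', rfl⟩ := Nat.exists_eq_succ_of_ne_zero hmne
  have hmin : ((1 + M * m').factorial : ℝ) < 2 * ((n : ℝ) + 1) * H * C ^ (1 + M * m') := by
    have := Nat.find_min hex (m := m') (by rw [← hm]; exact Nat.lt_succ_self m')
    exact not_le.mp this
  obtain ⟨N', hN'⟩ : ∃ N', N' = 1 + M * m' := ⟨_, rfl⟩
  have hN : 1 + M * (m' + 1) = N' + M := by rw [hN']; ring
  have hN'1 : 1 ≤ N' := by omega
  rw [Nat.succ_eq_add_one, hN] at hspec
  rw [← hN'] at hmin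
  refine ⟨N' + M, by omega, ?_, hspec, ?_⟩
  · rw [hN', Nat.add_mod_right, Nat.add_mul_mod_self_left]
  -- factorials
  have hfac : ((N' + M).factorial : ℝ) ≤ (N'.factorial : ℝ) * (2 ^ M) ^ (N' + M) := by
    have h1 : (N' + M).factorial ≤ N'.factorial * (N' + M) ^ M := by
      rw [← Nat.factorial_mul_ascFactorial]
      exact Nat.mul_le_mul_left _ (Nat.ascFactorial_le_pow_add N' M)
    have h2 : ((N' + M) ^ M : ℕ) ≤ (2 ^ M) ^ (N' + M) := by
      calc (N' + M) ^ M ≤ (2 ^ (N' + M)) ^ M := Nat.pow_le_pow_left (Nat.lt_two_pow_self).le M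
        _ = (2 ^ M) ^ (N' + M) := by rw [← pow_mul, ← pow_mul, mul_comm]
    exact_mod_cast h1.trans (Nat.mul_le_mul_left _ h2)
  have hn1 : (0 : ℝ) < 2 * ((n : ℝ) + 1) := by positivity
  -- the growth of `A ^ N`
  have hgrow : A ^ (N' + M) ≤ K0 ^ ε * (2 * ((n : ℝ) + 1)) ^ ε * H ^ ε := by
    have h1 : A ^ (N' + M) ≤ (A ^ (1 + M)) ^ N' := by
      rw [← pow_mul]
      exact pow_le_pow_right₀ hA1 (by nlinarith)
    have h2 : ((A ^ (1 + M)) ^ (1 / ε)) ^ N' ≤ K0 * (2 * ((n : ℝ) + 1) * H) := by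
      have h3 := hK0 N'
      rw [div_le_iff₀ (by positivity), hD, mul_pow] at h3
      have h4 : K0 * (N'.factorial : ℝ) ≤ K0 * (2 * ((n : ℝ) + 1) * H * C ^ N') :=
        mul_le_mul_of_nonneg_left hmin.le hK0pos.le
      have h5 := h3.trans h4
      rw [← mul_assoc] at h5
      exact le_of_mul_le_mul_right h5 (by positivity)
    have h6 : (((A ^ (1 + M)) ^ (1 / ε)) ^ N') ^ ε = (A ^ (1 + M)) ^ N' := by
      rw [← Real.rpow_natCast ((A ^ (1 + M)) ^ (1 / ε)) N', ← Real.rpow_mul (by positivity),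
        ← Real.rpow_mul (by positivity), ← Real.rpow_natCast (A ^ (1 + M)) N']
      congr 1
      field_simp
    calc A ^ (N' + M) ≤ (A ^ (1 + M)) ^ N' := h1
      _ = (((A ^ (1 + M)) ^ (1 / ε)) ^ N') ^ ε := h6.symm
      _ ≤ (K0 * (2 * ((n : ℝ) + 1) * H)) ^ ε := Real.rpow_le_rpow (by positivity) h2 hε.le
      _ = K0 ^ ε * (2 * ((n : ℝ) + 1)) ^ ε * H ^ ε := by
        rw [Real.mul_rpow hK0pos.le (by positivity), Real.mul_rpow hn1.le hH0.le, mul_assoc]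
  have hmain : C ^ (N' + M) * ((N' + M).factorial : ℝ) ^ n ≤
      A ^ (N' + M) * (2 * ((n : ℝ) + 1)) ^ n * H ^ n := by
    have h1 : ((N' + M).factorial : ℝ) ≤ (2 * ((n : ℝ) + 1) * H * C ^ (N' + M)) *
        (2 ^ M) ^ (N' + M) := by
      refine hfac.trans (mul_le_mul_of_nonneg_right ?_ (by positivity))
      refine hmin.le.trans (mul_le_mul_of_nonneg_left ?_ (by positivity))
      exact pow_le_pow_right₀ hC (by omega)
    calc C ^ (N' + M) * ((N' + M).factorial : ℝ) ^ n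
        ≤ C ^ (N' + M) * ((2 * ((n : ℝ) + 1) * H * C ^ (N' + M)) * (2 ^ M) ^ (N' + M)) ^ n := by
          gcongr
      _ = A ^ (N' + M) * (2 * ((n : ℝ) + 1)) ^ n * H ^ n := by
          rw [hA, mul_pow, mul_pow, mul_pow (2 * ((n : ℝ) + 1)) H n, mul_pow (C ^ (n + 1)),
            ← pow_mul, ← pow_mul, ← pow_mul, ← pow_mul, ← pow_mul]
          rw [show M * n * (N' + M) = M * (N' + M) * n by ring,
            show (n + 1) * (N' + M) = (N' + M) + (N' + M) * n by ring, pow_add]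
          ring
  have hHpow : H ^ ((n : ℝ) + ε) = H ^ n * H ^ ε := by
    rw [Real.rpow_add hH0, Real.rpow_natCast]
  calc C ^ (N' + M) * ((N' + M).factorial : ℝ) ^ n
      ≤ A ^ (N' + M) * (2 * ((n : ℝ) + 1)) ^ n * H ^ n := hmain
    _ ≤ (K0 ^ ε * (2 * ((n : ℝ) + 1)) ^ ε * H ^ ε) * (2 * ((n : ℝ) + 1)) ^ n * H ^ n := by
        gcongr
    _ = (2 * ((n : ℝ) + 1)) ^ n * K0 ^ ε * (2 * ((n : ℝ) + 1)) ^ ε * H ^ ((n : ℝ) + ε) := by
        rw [hHpow]; ring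

/-- a nonzero integer vector is not annihilated by a nonsingular matrix -/
theorem exists_row {n : ℕ} (P : Fin (n + 1) → Fin (n + 1) → ℤ) (hP : (Matrix.of P).det ≠ 0)
    (a : ℕ → ℤ) (ha : ∃ i ≤ n, a i ≠ 0) :
    ∃ k, ∑ j : Fin (n + 1), P k j * a j ≠ 0 := by
  by_contra hcon
  push Not at hcon
  obtain ⟨i, hi, hai⟩ := ha
  have h := Matrix.eq_zero_of_mulVec_eq_zero hP (v := fun j : Fin (n + 1) => a j) (by
    funext k
    exact hcon k)
  have := congrFun h ⟨i, by omega⟩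
  exact hai this

theorem main : S_HL := by
  intro hherm n ε hε
  obtain ⟨C, hC, hC2⟩ := hherm n
  obtain ⟨K, hK, hK2⟩ := choice n C ε hC hε
  refine ⟨1 / (2 * K), by positivity, fun a ha H hH haH => ?_⟩
  obtain ⟨N, hN2, hNmod, hN3, hN4⟩ := hK2 H hH
  obtain ⟨P, hdet, hP0, hPj⟩ := hC2 N hN2 hNmod
  obtain ⟨k, hk⟩ := exists_row P hdet a ha
  obtain ⟨L, hL⟩ : ∃ L : ℝ, L = ∑ i ∈ range (n + 1), (a i : ℝ) * Real.exp i := ⟨_, rfl⟩
  have hL' : L = ∑ j : Fin (n + 1), (a j : ℝ) * Real.exp ((j : ℕ) : ℝ) := by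
    rw [hL, Finset.sum_range]
  rw [← hL]
  have hone : (1 : ℝ) ≤ |∑ j : Fin (n + 1), (P k j : ℝ) * (a j : ℝ)| := by
    have := Int.one_le_abs hk
    exact_mod_cast this
  have hid : ∑ j : Fin (n + 1), (P k j : ℝ) * (a j : ℝ) = (P k 0 : ℝ) * L -
      ∑ j : Fin (n + 1), (a j : ℝ) * ((P k 0 : ℝ) * Real.exp ((j : ℕ) : ℝ) - P k j) := by
    rw [hL', Finset.mul_sum, ← Finset.sum_sub_distrib]
    refine Finset.sum_congr rfl fun j _ => ?_
    ring
  have hfac : (0 : ℝ) < N.factorial := by exact_mod_cast Nat.factorial_pos N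
  have herr : |∑ j : Fin (n + 1), (a j : ℝ) * ((P k 0 : ℝ) * Real.exp ((j : ℕ) : ℝ) - P k j)|
      ≤ 1 / 2 := by
    calc |∑ j : Fin (n + 1), (a j : ℝ) * ((P k 0 : ℝ) * Real.exp ((j : ℕ) : ℝ) - P k j)|
        ≤ ∑ j : Fin (n + 1), |(a j : ℝ) * ((P k 0 : ℝ) * Real.exp ((j : ℕ) : ℝ) - P k j)| :=
          Finset.abs_sum_le_sum_abs _ _
      _ ≤ ∑ _j : Fin (n + 1), H * (C ^ N / N.factorial) := by
          refine Finset.sum_le_sum fun j _ => ?_
          rw [abs_mul]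
          exact mul_le_mul (haH j (by have := j.2; omega)) (hPj k j) (abs_nonneg _) (by linarith)
      _ = ((n : ℝ) + 1) * (H * (C ^ N / N.factorial)) := by
          simp
      _ ≤ 1 / 2 := by
          rw [← mul_assoc, ← mul_div_assoc, div_le_iff₀ hfac]
          linarith
  have hlow : (1 : ℝ) / 2 ≤ |(P k 0 : ℝ)| * |L| := by
    rw [← abs_mul]
    rw [hid] at hone
    have := abs_sub (( P k 0 : ℝ) * L)
      (∑ j : Fin (n + 1), (a j : ℝ) * ((P k 0 : ℝ) * Real.exp ((j : ℕ) : ℝ) - P k j))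
    linarith
  have hup : |(P k 0 : ℝ)| * |L| ≤ (K * H ^ ((n : ℝ) + ε)) * |L| :=
    mul_le_mul_of_nonneg_right ((hP0 k).trans hN4) (abs_nonneg _)
  rw [div_le_iff₀ (by positivity)]
  nlinarith

end Pool.Agent.W588.JL
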